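import Pool.Agent.Q260.MM.Weak

/-!
# The motivic zeta functions and the chain `f, f + y z, …`: global functional equations
-/

set_option autoImplicit false

namespace Pool.Agent.Q260.MM

open MvPolynomial Pool.Agent.H628R4.TP Pool.Agent.W428.MOT
open Pool.Agent.Y229.MS (addyz itr Witr shn fst' zeta_of_fst zeta_iso ce_good descend'
  constr_Witr CE)
open Pool.Agent.W375.MG (JetG zetaG Good ratRing_mono IsPole)
open Pool.Agent.Q59.TR

/-- the pairs `(a, b)`, `b > 0`, such that `a / b` is a root modulo `ℤ` of the functional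
equations of `f` -/
def WkG {n : ℕ} (f : MvPolynomial (Fin n) ℂ) : Set (ℤ × ℤ) :=
  {p | 0 < p.2 ∧ ∀ b : Polynomial ℂ, IsBFunction f b →
    ∃ i : ℤ, b.eval ((p.1 : ℂ) / p.2 - i) = 0}

/-- the pairs `(a, b)`, `b > 0`, such that `a / b` is a root of the reduced functional equations -/
def RdG {n : ℕ} (f : MvPolynomial (Fin n) ℂ) : Set (ℤ × ℤ) :=
  {p | 0 < p.2 ∧ ∀ c : Polynomial ℂ, IsBFunction f ((Polynomial.X + 1) * c) →
    c.eval ((p.1 : ℂ) / p.2) = 0}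

theorem shift_eq {q : ℤ × ℤ} {j : ℕ} (h1 : 0 < q.2) :
    (((q.1 + j * q.2, q.2) : ℤ × ℤ).1 : ℂ) / (((q.1 + j * q.2, q.2) : ℤ × ℤ).2 : ℂ) =
      (q.1 : ℂ) / q.2 + j := by
  have h3 : (q.2 : ℂ) ≠ 0 := by exact_mod_cast h1.ne'
  push_cast
  field_simp

theorem shiftG_mem {n M : ℕ} {f : MvPolynomial (Fin n) ℂ} {G : MvPolynomial (Fin M) ℂ} {j : ℕ}
    (hf : f.totalDegree ≠ 0)
    (hG : ∀ c : Polynomial ℂ, IsBFunction f ((Polynomial.X + 1) * c) →
      IsBFunction G ((Polynomial.X + 1) * c.comp (Polynomial.X + Polynomial.C (j : ℂ)))) :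
    shn j (WkG G) ⊆ WkG f := by
  rintro p ⟨q, ⟨h1, h2⟩, rfl⟩
  refine ⟨h1, fun b hb => ?_⟩
  obtain ⟨c, rfl⟩ := factor hf hb
  obtain ⟨i, hi⟩ := shift_root (h2 _ (hG c hb))
  refine ⟨i, ?_⟩
  rw [shift_eq h1]
  exact hi

theorem shiftR_mem {n M : ℕ} {f : MvPolynomial (Fin n) ℂ} {G : MvPolynomial (Fin M) ℂ} {j : ℕ}
    (hG : ∀ c : Polynomial ℂ, IsBFunction f ((Polynomial.X + 1) * c) →
      IsBFunction G ((Polynomial.X + 1) * c.comp (Polynomial.X + Polynomial.C (j : ℂ)))) :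
    shn j (RdG G) ⊆ RdG f := by
  rintro p ⟨q, ⟨h1, h2⟩, rfl⟩
  refine ⟨h1, fun c hc => ?_⟩
  have h3 := h2 _ (hG c hc)
  rw [Polynomial.eval_comp, Polynomial.eval_add, Polynomial.eval_X, Polynomial.eval_C] at h3
  rw [shift_eq h1]
  exact h3

theorem intG_mem {n : ℕ} {f : MvPolynomial (Fin n) ℂ} (hf : f.totalDegree ≠ 0) :
    ((-1, 1) : ℤ × ℤ) ∈ WkG f := by
  refine ⟨one_pos, fun b hb => ⟨0, ?_⟩⟩
  obtain ⟨c, rfl⟩ := factor hf hb
  rw [Polynomial.eval_mul]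
  simp

/-- **The transfer**, for the global motivic zeta functions. -/
theorem weakG_transfer {E : Set (AlgebraicClosure ℂ)} (hE : Good E)
    (h : ∀ (n : ℕ) (f : MvPolynomial (Fin n) ℂ), f.totalDegree ≠ 0 → AffTri f →
      zetaG f Set.univ E ∈ ratRing ℂ (WkG f)) {n : ℕ} (f : MvPolynomial (Fin n) ℂ)
    (hf : f.totalDegree ≠ 0) : zetaG f Set.univ E ∈ ratRing ℂ (WkG f) := by
  obtain ⟨κ, hκ⟩ := exists_chain f
  have key : ∀ j : ℕ, κ ≤ j → ∃ S : Set (ℤ × ℤ), (∀ p ∈ S, 0 < p.2) ∧ shn j S ⊆ WkG f ∧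
      fst' ℂ * zetaG (itr f j) (Witr Set.univ j) E ∈ ratRing ℂ S := by
    intro j hj
    obtain ⟨M, G, ψ, hM, hψ, hT, -⟩ := hκ j hj
    have hG : G.totalDegree ≠ 0 := by
      rw [← hψ]
      exact deg_iso ψ (itr_deg hf j)
    refine ⟨WkG G, fun p hp => hp.1, shiftG_mem hf fun c hc => ?_, ?_⟩
    · rw [← hψ]
      exact Pool.Agent.W206.CU.isBFunction_iso ψ (b_itr hf hc j)
    · refine (ratRing ℂ _).mul_mem (fst_mem _) ?_
      have h3 := zeta_iso Pool.Agent.Z864.MS.three hM ψ (itr f j)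
        (W := Witr Set.univ j) (constr_Witr Constr.univ j) (ce_good hE)
      rw [← h3, hψ]
      have h4 : {w : Pt ℂ (Fin M) | (fun i => aeval w (ψ (X i))) ∈
          Witr (K := ℂ) (Set.univ : Set (Pt ℂ (Fin n))) j} = Set.univ := by
        rw [Witr_univ]
        simp
      rw [h4]
      exact h M G hG hT
  obtain ⟨S1, p1, s1, m1⟩ := key κ le_rfl
  obtain ⟨S2, p2, s2, m2⟩ := key (κ + 1) (Nat.le_succ κ)
  have h3 := zeta_of_fst f Set.univ E _
    (descend' f Constr.univ (ce_good hE) κ S1 S2 p1 p2 m1 m2)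
  refine ratRing_mono ?_ h3
  rintro p (rfl | hp | hp)
  · exact intG_mem hf
  · exact s1 hp
  · exact s2 hp

/-- the chain at the origin, multiplied by `1 - 𝕃⁻¹ T` -/
theorem chain_fst {n : ℕ} (f : MvPolynomial (Fin n) ℂ) {j M : ℕ} {G : MvPolynomial (Fin M) ℂ}
    (ψ : MvPolynomial (Fin (n + 2 * j)) ℂ ≃ₐ[ℂ] MvPolynomial (Fin M) ℂ) (hM : n + 2 * j = M)
    (hψ : ψ (itr f j) = G) (hψ0 : ∀ i, constantCoeff (ψ (X i)) = 0)
    {E : Set (AlgebraicClosure ℂ)} (hE : CE E) {S : Set (ℤ × ℤ)}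
    (hG : fst' ℂ * zetaG G {0} E ∈ ratRing ℂ S) :
    fst' ℂ * zetaG (itr f j) (Witr {0} j) E ∈ ratRing ℂ S := by
  have h3 := zeta_iso Pool.Agent.Z864.MS.three hM ψ (itr f j)
    (W := {0}) constr_zero hE
  rw [pull_zero ψ hψ0, hψ] at h3
  rw [h3] at hG
  obtain ⟨Z, hZ, hZe⟩ := loc_split f hE j
  rw [hZe, mul_add]
  exact (ratRing ℂ _).add_mem hG (ratRing_mono (Set.empty_subset _) hZ)

/-- **The transfer**, for the zeta functions at the origin, with subrings: `Q` is a set of pairs which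
is compatible with the chain. -/
theorem fst_transfer {E : Set (AlgebraicClosure ℂ)} (hE : Good E)
    (Q : ∀ (n : ℕ), MvPolynomial (Fin n) ℂ → Set (ℤ × ℤ))
    (hpos : ∀ n f, ∀ p ∈ Q n f, 0 < p.2)
    (hQ : ∀ (n M : ℕ) (f : MvPolynomial (Fin n) ℂ) (G : MvPolynomial (Fin M) ℂ) (j : ℕ),
      f.totalDegree ≠ 0 → (∀ c : Polynomial ℂ, IsBFunction f ((Polynomial.X + 1) * c) →
      IsBFunction G ((Polynomial.X + 1) * c.comp (Polynomial.X + Polynomial.C (j : ℂ)))) →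
      shn j (Q M G) ⊆ Q n f)
    (h : ∀ (n : ℕ) (f : MvPolynomial (Fin n) ℂ), f.totalDegree ≠ 0 → constantCoeff f = 0 →
      AffTri f → fst' ℂ * zetaG f {0} E ∈ ratRing ℂ (Q n f)) {n : ℕ}
    (f : MvPolynomial (Fin n) ℂ) (hf : f.totalDegree ≠ 0) (hf0 : constantCoeff f = 0) :
    fst' ℂ * zetaG f {0} E ∈ ratRing ℂ (Q n f) := by
  obtain ⟨κ, hκ⟩ := exists_chain0 f
  have key : ∀ j : ℕ, κ ≤ j → ∃ S : Set (ℤ × ℤ), (∀ p ∈ S, 0 < p.2) ∧ shn j S ⊆ Q n f ∧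
      fst' ℂ * zetaG (itr f j) (Witr {0} j) E ∈ ratRing ℂ S := by
    intro j hj
    obtain ⟨M, G, ψ, hM, hψ, hψ0, hT, h0⟩ := hκ j hj
    have hG : G.totalDegree ≠ 0 := by
      rw [← hψ]
      exact deg_iso ψ (itr_deg hf j)
    refine ⟨Q M G, hpos M G, hQ n M f G j hf fun c hc => ?_, ?_⟩
    · rw [← hψ]
      exact Pool.Agent.W206.CU.isBFunction_iso ψ (b_itr hf hc j)
    · exact chain_fst f ψ hM hψ hψ0 (ce_good hE) (h M G hG (by rw [h0, hf0]) hT)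
  obtain ⟨S1, p1, s1, m1⟩ := key κ le_rfl
  obtain ⟨S2, p2, s2, m2⟩ := key (κ + 1) (Nat.le_succ κ)
  have h3 := descend' f constr_zero (ce_good hE) κ S1 S2 p1 p2 m1 m2
  refine ratRing_mono ?_ h3
  rintro p (hp | hp)
  · exact s1 hp
  · exact s2 hp

/-- **The transfer**, for the poles at the origin. -/
theorem strongPole_transfer {E : Set (AlgebraicClosure ℂ)} (hE : Good E)
    (h : ∀ (n : ℕ) (f : MvPolynomial (Fin n) ℂ), f.totalDegree ≠ 0 → constantCoeff f = 0 →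
      AffTri f → ∀ s₀ : ℚ, IsPole (zetaG f {0} E) s₀ →
        ∀ b : Polynomial ℂ, IsBFunction f b → b.eval (s₀ : ℂ) = 0) {n : ℕ}
    (f : MvPolynomial (Fin n) ℂ) (hf : f.totalDegree ≠ 0) (hf0 : constantCoeff f = 0) :
    ∀ s₀ : ℚ, IsPole (zetaG f {0} E) s₀ →
        ∀ b : Polynomial ℂ, IsBFunction f b → b.eval (s₀ : ℂ) = 0 := by
  intro s₀ hs b hb
  by_contra hne
  obtain ⟨c, rfl⟩ := factor hf hb
  have hne' := hne
  rw [Polynomial.eval_mul] at hne'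
  have hc := right_ne_zero_of_mul hne'
  have hs1 : s₀ ≠ -1 := by
    rintro rfl
    apply left_ne_zero_of_mul hne'
    simp
  obtain ⟨κ, hκ⟩ := exists_chain0 f
  obtain ⟨m, hm1, hm2⟩ : ∃ m : ℕ, κ ≤ m ∧ s₀ + 1 < m := by
    obtain ⟨m, hm⟩ := exists_nat_gt (s₀ + 1)
    refine ⟨max κ m, le_max_left _ _, lt_of_lt_of_le hm ?_⟩
    exact_mod_cast le_max_right _ _
  have key : ∀ j : ℕ, m ≤ j → zetaG (itr f j) (Witr {0} j) E ∈ ratRing ℂ (Av (s₀ - j)) := by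
    intro j hj
    obtain ⟨M, G, ψ, hM, hψ, hψ0, hT, h0⟩ := hκ j (hm1.trans hj)
    have hsj : s₀ + 1 < (j : ℚ) := lt_of_lt_of_le hm2 (by exact_mod_cast hj)
    have hG : G.totalDegree ≠ 0 := by
      rw [← hψ]
      exact deg_iso ψ (itr_deg hf j)
    have h1 := h M G hG (by rw [h0, hf0]) hT (s₀ - j)
    have h2 : ¬ IsPole (zetaG G {0} E) (s₀ - j) := by
      intro hp
      have h3 := h1 hp _ (by
        rw [← hψ]
        exact Pool.Agent.W206.CU.isBFunction_iso ψ (b_itr hf hb j))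
      exact eval_comp_aux hc hsj h3
    unfold IsPole at h2
    rw [not_not] at h2
    have h3 := zeta_iso Pool.Agent.Z864.MS.three hM ψ (itr f j)
      (W := {0}) constr_zero (ce_good hE)
    rw [pull_zero ψ hψ0, hψ] at h3
    rw [h3] at h2
    obtain ⟨Z, hZ, hZe⟩ := loc_split f (ce_good hE) j
    rw [hZe]
    refine (ratRing ℂ _).add_mem h2 ?_
    have h4 := geo_fst hZ
    refine ratRing_mono ?_ h4
    rintro p (rfl : p = (-1, 1))
    refine ⟨one_pos, ?_⟩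
    push_cast
    intro h5
    have h6 : s₀ + 1 = (j : ℚ) := by linarith
    rw [h6] at hsj
    exact lt_irrefl _ hsj
  have h5 := descend_reg f (W := {0}) constr_zero hE hs1 m (key m le_rfl)
    (key (m + 1) (Nat.le_succ m))
  exact hs h5

end Pool.Agent.Q260.MM
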