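import Pool.Agent.Q59.TR.MotL

/-!
# The local motivic monodromy conjecture and the chain `f, f + y z, …`
-/

set_option autoImplicit false

namespace Pool.Agent.Q260.MM

open MvPolynomial Pool.Agent.H628R4.TP Pool.Agent.W428.MOT
open Pool.Agent.Y229.MS (addyz itr Witr shn fst' zeta_of_fst zeta_iso ce_good descend')
open Pool.Agent.W375.MG (JetG zetaG Good ratRing_mono zetaOrd IsPole zetaOrd_eq good_units)
open Pool.Agent.Q59.TR

/-- the pairs `(a, b)`, `b > 0`, such that `a / b` is a root modulo `ℤ` of the local functional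
equations of `f` -/
def Wk {n : ℕ} (f : MvPolynomial (Fin n) ℂ) : Set (ℤ × ℤ) :=
  {p | 0 < p.2 ∧ ∀ b : Polynomial ℂ, IsLocalBFunction f b →
    ∃ i : ℤ, b.eval ((p.1 : ℂ) / p.2 - i) = 0}

/-- the subring condition -/
def WkMC {n : ℕ} (f : MvPolynomial (Fin n) ℂ) : Prop := zetaOrd f {0} ∈ ratRing ℂ (Wk f)

/-- the condition on the poles -/
def WkPole {n : ℕ} (f : MvPolynomial (Fin n) ℂ) : Prop :=
  ∀ s₀ : ℚ, IsPole (zetaOrd f {0}) s₀ →
    ∀ b : Polynomial ℂ, IsLocalBFunction f b → ∃ i : ℤ, b.eval ((s₀ : ℂ) - i) = 0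

theorem exists_finite {K : Type} [Field K] {S : Set (ℤ × ℤ)} {x : PowerSeries (MK K)}
    (hx : x ∈ ratRing K S) : ∃ F : Finset (ℤ × ℤ), (F : Set (ℤ × ℤ)) ⊆ S ∧
      x ∈ ratRing K (F : Set (ℤ × ℤ)) := by
  classical
  unfold ratRing at hx
  induction hx using Algebra.adjoin_induction with
  | mem x hx =>
    rcases hx with hx | ⟨p, hp, rfl⟩
    · exact ⟨∅, by simp, Algebra.subset_adjoin (Or.inl hx)⟩
    · refine ⟨{p}, by simpa using hp, Algebra.subset_adjoin (Or.inr ⟨p, by simp, rfl⟩)⟩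
  | algebraMap r => exact ⟨∅, by simp, Subalgebra.algebraMap_mem _ r⟩
  | add x y _ _ hx hy =>
    obtain ⟨F, hF, hx⟩ := hx
    obtain ⟨G, hG, hy⟩ := hy
    refine ⟨F ∪ G, by simpa using ⟨hF, hG⟩, Subalgebra.add_mem _
      (ratRing_mono (by simp) hx) (ratRing_mono (by simp) hy)⟩
  | mul x y _ _ hx hy =>
    obtain ⟨F, hF, hx⟩ := hx
    obtain ⟨G, hG, hy⟩ := hy
    refine ⟨F ∪ G, by simpa using ⟨hF, hG⟩, Subalgebra.mul_mem _
      (ratRing_mono (by simp) hx) (ratRing_mono (by simp) hy)⟩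

theorem mem_iff {n : ℕ} (f : MvPolynomial (Fin n) ℂ) (W : Set (Pt ℂ (Fin n)))
    (S : Set (ℤ × ℤ)) :
    zetaOrd f W ∈ ratRing ℂ S ↔ zetaG f W {a | a ≠ 0} ∈ ratRing ℂ S := by
  rw [zetaOrd_eq]
  constructor
  · intro h
    have h1 := (ratRing ℂ S).mul_mem (Pool.Agent.W63.MTFin.C_mem S
      (((Lu ℂ) ^ (n : ℤ) : (MK ℂ)ˣ) : MK ℂ)) h
    rw [← mul_assoc, ← map_mul, ← Units.val_mul, ← zpow_add, add_neg_cancel, zpow_zero,
      Units.val_one, map_one, one_mul] at h1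
    exact h1
  · intro h
    exact (ratRing ℂ _).mul_mem (Pool.Agent.W63.MTFin.C_mem _ _) h

/-- the shift of the exponents -/
theorem shift_root {c : Polynomial ℂ} {z : ℂ} {j : ℕ}
    (h : ∃ i : ℤ, ((Polynomial.X + 1) * c.comp (Polynomial.X + Polynomial.C (j : ℂ))).eval
      (z - i) = 0) : ∃ i : ℤ, ((Polynomial.X + 1) * c).eval (z + j - i) = 0 := by
  obtain ⟨i, hi⟩ := h
  rw [Polynomial.eval_mul, mul_eq_zero] at hi
  rcases hi with hi | hi
  · refine ⟨i + j, ?_⟩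
    rw [Polynomial.eval_mul]
    have h1 : z + j - ((i + j : ℤ) : ℂ) = z - i := by
      push_cast
      ring
    rw [h1, hi, zero_mul]
  · refine ⟨i, ?_⟩
    rw [Polynomial.eval_comp, Polynomial.eval_add, Polynomial.eval_X, Polynomial.eval_C] at hi
    rw [Polynomial.eval_mul]
    have h1 : z + j - (i : ℂ) = z - i + j := by ring
    rw [h1, hi, mul_zero]

theorem shift_mem {n M : ℕ} {f : MvPolynomial (Fin n) ℂ} {G : MvPolynomial (Fin M) ℂ} {j : ℕ}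
    (hf : f.totalDegree ≠ 0) (hf0 : constantCoeff f = 0)
    (hG : ∀ c : Polynomial ℂ, IsLocalBFunction f ((Polynomial.X + 1) * c) →
      IsLocalBFunction G ((Polynomial.X + 1) * c.comp (Polynomial.X + Polynomial.C (j : ℂ)))) :
    shn j (Wk G) ⊆ Wk f := by
  rintro p ⟨q, ⟨h1, h2⟩, rfl⟩
  refine ⟨h1, fun b hb => ?_⟩
  obtain ⟨c, rfl⟩ := factorL hf hf0 hb
  obtain ⟨i, hi⟩ := shift_root (h2 _ (hG c hb))
  refine ⟨i, ?_⟩
  have h3 : (q.2 : ℂ) ≠ 0 := by exact_mod_cast h1.ne'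
  have h4 : (((q.1 + j * q.2, q.2) : ℤ × ℤ).1 : ℂ) / (((q.1 + j * q.2, q.2) : ℤ × ℤ).2 : ℂ) =
      (q.1 : ℂ) / q.2 + j := by
    push_cast
    field_simp
  rw [h4]
  exact hi

theorem int_mem {n : ℕ} {f : MvPolynomial (Fin n) ℂ} (hf : f.totalDegree ≠ 0)
    (hf0 : constantCoeff f = 0) : ((-1, 1) : ℤ × ℤ) ∈ Wk f := by
  refine ⟨one_pos, fun b hb => ⟨0, ?_⟩⟩
  obtain ⟨c, rfl⟩ := factorL hf hf0 hb
  rw [Polynomial.eval_mul]
  simp

/-- the chain for one member -/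
theorem chain_mem {n : ℕ} (f : MvPolynomial (Fin n) ℂ) {j M : ℕ} {G : MvPolynomial (Fin M) ℂ}
    (ψ : MvPolynomial (Fin (n + 2 * j)) ℂ ≃ₐ[ℂ] MvPolynomial (Fin M) ℂ) (hM : n + 2 * j = M)
    (hψ : ψ (itr f j) = G) (hψ0 : ∀ i, constantCoeff (ψ (X i)) = 0)
    {S : Set (ℤ × ℤ)} (hS : ((-1, 1) : ℤ × ℤ) ∈ S)
    (hG : zetaOrd G {0} ∈ ratRing ℂ S) :
    zetaG (itr f j) (Witr {0} j) {a | a ≠ 0} ∈ ratRing ℂ S := by
  rw [mem_iff] at hG
  have h3 := zeta_iso Pool.Agent.Z864.MS.three hM ψ (itr f j)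
    (W := {0}) constr_zero (ce_good good_units)
  rw [pull_zero ψ hψ0, hψ] at h3
  rw [h3] at hG
  obtain ⟨Z, hZ, hZe⟩ := loc_split f (ce_good good_units) j
  rw [hZe]
  refine (ratRing ℂ _).add_mem hG ?_
  have h4 := geo_fst hZ
  refine ratRing_mono ?_ h4
  rintro p (rfl : p = (-1, 1))
  exact hS

/-- **The transfer**, for the motivic monodromy conjecture at the origin. -/
theorem weak_transfer
    (h : ∀ (n : ℕ) (f : MvPolynomial (Fin n) ℂ), f.totalDegree ≠ 0 → constantCoeff f = 0 →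
      AffTri f → WkMC f) {n : ℕ} (f : MvPolynomial (Fin n) ℂ) (hf : f.totalDegree ≠ 0)
    (hf0 : constantCoeff f = 0) : WkMC f := by
  obtain ⟨κ, hκ⟩ := exists_chain0 f
  have key : ∀ j : ℕ, κ ≤ j → ∃ S : Set (ℤ × ℤ), (∀ p ∈ S, 0 < p.2) ∧ shn j S ⊆ Wk f ∧
      fst' ℂ * zetaG (itr f j) (Witr {0} j) {a | a ≠ 0} ∈ ratRing ℂ S := by
    intro j hj
    obtain ⟨M, G, ψ, hM, hψ, hψ0, hT, h0⟩ := hκ j hj
    have hG : G.totalDegree ≠ 0 := by
      rw [← hψ]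
      exact deg_iso ψ (itr_deg hf j)
    have hG0 : constantCoeff G = 0 := by rw [h0, hf0]
    refine ⟨Wk G, fun p hp => hp.1, shift_mem hf hf0 fun c hc => ?_, ?_⟩
    · rw [← hψ]
      exact isLocalB_iso hM ψ hψ0 (bL_itr hf hf0 hc j)
    · exact (ratRing ℂ _).mul_mem (fst_mem _) (chain_mem f ψ hM hψ hψ0 (int_mem hG hG0)
        (h M G hG hG0 hT))
  obtain ⟨S1, p1, s1, m1⟩ := key κ le_rfl
  obtain ⟨S2, p2, s2, m2⟩ := key (κ + 1) (Nat.le_succ κ)
  have h3 := zeta_of_fst f {0} {a | a ≠ 0} _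
    (descend' f constr_zero (ce_good good_units) κ S1 S2 p1 p2 m1 m2)
  unfold WkMC
  rw [mem_iff]
  refine ratRing_mono ?_ h3
  rintro p (rfl | hp | hp)
  · exact int_mem hf hf0
  · exact s1 hp
  · exact s2 hp

/-- **The transfer**, for the poles. -/
theorem pole_transfer
    (h : ∀ (n : ℕ) (f : MvPolynomial (Fin n) ℂ), f.totalDegree ≠ 0 → constantCoeff f = 0 →
      AffTri f → WkPole f) {n : ℕ} (f : MvPolynomial (Fin n) ℂ) (hf : f.totalDegree ≠ 0)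
    (hf0 : constantCoeff f = 0) : WkPole f := by
  intro s₀ hs b hb
  by_contra hne
  obtain ⟨c, rfl⟩ := factorL hf hf0 hb
  have hint : ∀ i : ℤ, s₀ ≠ i := by
    rintro i rfl
    apply hne
    refine ⟨i + 1, ?_⟩
    rw [Polynomial.eval_mul]
    simp
  obtain ⟨κ, hκ⟩ := exists_chain0 f
  have key : ∀ j : ℕ, κ ≤ j → zetaG (itr f j) (Witr {0} j) {a | a ≠ 0} ∈
      ratRing ℂ (Av (s₀ - j)) := by
    intro j hj
    obtain ⟨M, G, ψ, hM, hψ, hψ0, hT, h0⟩ := hκ j hj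
    have hG : G.totalDegree ≠ 0 := by
      rw [← hψ]
      exact deg_iso ψ (itr_deg hf j)
    refine chain_mem f ψ hM hψ hψ0 ?_ ?_
    · refine ⟨one_pos, ?_⟩
      push_cast
      intro h5
      refine hint (j - 1) ?_
      push_cast
      linarith
    · by_contra hp
      have h1 := h M G hG (by rw [h0, hf0]) hT (s₀ - j) hp _ (by
        rw [← hψ]
        exact isLocalB_iso hM ψ hψ0 (bL_itr hf hf0 hb j))
      obtain ⟨i, hi⟩ := shift_root h1
      refine hne ⟨i, ?_⟩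
      push_cast at hi
      rw [sub_add_cancel] at hi
      exact hi
  have h5 := descend_reg f (W := {0}) constr_zero good_units (by
    have := hint (-1)
    push_cast at this
    exact this) κ (key κ le_rfl) (key (κ + 1) (Nat.le_succ κ))
  rw [← not_pole_iff] at h5
  exact h5 hs

end Pool.Agent.Q260.MM
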